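import Pool.Agent.Helper89.OC.St1

/-!
# Project OC (MP_2b6189_al), module GLC: the twists
-/

set_option autoImplicit false

namespace Pool.Agent.Helper38.OC

open Matrix ComplexConjugate Pool.Agent.Helper94.YF Pool.Agent.Helper94.YG Pool.Agent.Helper89.OS
  Pool.Agent.Helper89.OC

/-- A convex combination of unit complex numbers which is a unit complex number is trivial. -/
lemma unit_eq {I : Type} [Fintype I] (w : I → ℕ) (a : I → ℂ) (τ : ℂ) (ha : ∀ l, ‖a l‖ = 1)
    (hτ : ‖τ‖ = 1) (h : ((∑ l, w l : ℕ) : ℂ) * τ = ∑ l, (w l : ℂ) * a l) (l : I)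
    (hl : w l ≠ 0) : a l = τ := by
  have hττ : τ * conj τ = 1 := by
    rw [Complex.mul_conj, Complex.normSq_eq_norm_sq, hτ]
    norm_num
  have h1 : ((∑ l, w l : ℕ) : ℂ) = ∑ l, (w l : ℂ) * (a l * conj τ) := by
    calc ((∑ l, w l : ℕ) : ℂ) = ((∑ l, w l : ℕ) : ℂ) * τ * conj τ := by
          rw [mul_assoc, hττ, mul_one]
      _ = _ := by
          rw [h, Finset.sum_mul]
          exact Finset.sum_congr rfl fun l _ => by ring
  have h2 : (∑ l, (w l : ℝ) * (1 - (a l * conj τ).re)) = 0 := by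
    have h3 := congrArg Complex.re h1
    rw [Complex.re_sum] at h3
    have h4 : ∀ l, ((w l : ℂ) * (a l * conj τ)).re = (w l : ℝ) * (a l * conj τ).re := by
      intro l
      rw [← Complex.ofReal_natCast, Complex.re_ofReal_mul]
    simp only [h4] at h3
    rw [Complex.natCast_re] at h3
    push_cast at h3
    simp only [mul_sub, mul_one, Finset.sum_sub_distrib]
    linarith
  have hn : ∀ l, ‖a l * conj τ‖ = 1 := by
    intro l
    rw [norm_mul, ha, Complex.norm_conj, hτ, mul_one]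
  have hre : ∀ l, (a l * conj τ).re ≤ 1 := by
    intro l
    exact (Complex.re_le_norm _).trans (hn l).le
  have h5 := (Finset.sum_eq_zero_iff_of_nonneg (fun l _ =>
    mul_nonneg (Nat.cast_nonneg (w l)) (sub_nonneg.2 (hre l)))).1 h2 l (Finset.mem_univ l)
  have h6 : (a l * conj τ).re = 1 := by
    rcases mul_eq_zero.1 h5 with h | h
    · exact absurd (Nat.cast_eq_zero.1 h) hl
    · linarith
  have h7 : (a l * conj τ).im = 0 := by
    have h8 : (a l * conj τ).re ^ 2 + (a l * conj τ).im ^ 2 = 1 := by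
      have := Complex.normSq_eq_norm_sq (a l * conj τ)
      rw [hn l, Complex.normSq_apply] at this
      nlinarith
    rw [h6] at h8
    have : (a l * conj τ).im ^ 2 = 0 := by linarith
    exact pow_eq_zero_iff (two_ne_zero) |>.1 this
  have h9 : a l * conj τ = 1 := Complex.ext (by simpa using h6) (by simpa using h7)
  calc a l = a l * (τ * conj τ) := by rw [hττ, mul_one]
    _ = (a l * conj τ) * τ := by ring
    _ = τ := by rw [h9, one_mul]

lemma Sm_eq {L : ℕ} : (Sm : SL L) = U (-1) * Lo 1 * U (-1) := by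
  apply Matrix.SpecialLinearGroup.ext
  intro i j
  fin_cases i <;> fin_cases j <;>
    simp [Sm, U, Lo, Matrix.mul_apply, Fin.sum_univ_two]

/-- **OC MODULE GLC** -/
theorem hGLC : StGLC := by
  intro hA hB I _ _ Z
  obtain ⟨fU, fL, fadd, f0, f1, fo, -, fN, -, -, -⟩ :=
    Helper36.YF.hFUS Helper88.YF.hDUA I Z.toCentreRep
  obtain ⟨dss, -, dd, dth, -, -⟩ := Helper88.YF.hDUA I Z.toCentreRep
  have A := hA I Z
  have B := hB I Z
  have hn0 : (Z.n : ℂ) ≠ 0 := Nat.cast_ne_zero.2 Z.n_pos.ne'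
  have hd0 : ∀ l, (Z.d l : ℂ) ≠ 0 := fun l => Nat.cast_ne_zero.2 (Z.d_pos l).ne'
  have hth : ∀ l, ‖Z.th l‖ = 1 := fun l => Complex.norm_eq_one_of_pow_eq_one (fL l) Z.L_pos.ne'
  have htt : ∀ l, Z.th l * Z.tw (-1) l = 1 := by
    intro l
    rw [← f1 l, ← fadd, add_neg_cancel, f0]
  have hS : ∀ i k, Z.rho Sm i k = Z.tw (-1) i * Z.rho (Lo 1) i k * Z.tw (-1) k := by
    intro i k
    rw [Sm_eq, map_mul, map_mul, fU, Matrix.mul_diagonal, Matrix.diagonal_mul]
  have hLo : ∀ l, Z.rho (Lo 1) l Z.o = Z.th l * ((Z.d l : ℂ) / Z.n) := by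
    intro l
    have h := hS l Z.o
    rw [fo, mul_one, Z.s_symm l Z.o, Z.s_o] at h
    rw [h, ← mul_assoc, htt, one_mul]
  have twist : ∀ i k, Sf Z i k * (Z.th i * Z.th k) =
      ∑ l, (Z.N i (Z.st k) l : ℂ) * (Z.th l * Z.d l) := by
    intro i k
    unfold Sf
    calc (Z.n : ℂ) * Z.rho Sm i k * (Z.th i * Z.th k)
        = (Z.n : ℂ) * ((Z.th i * Z.tw (-1) i) * (Z.th k * Z.tw (-1) k)) * Z.rho (Lo 1) i k := by
          rw [hS]; ring
      _ = (Z.n : ℂ) * Z.rho (Lo 1) i k := by rw [htt, htt]; ring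
      _ = _ := by
          rw [fN 1 i k, Finset.mul_sum]
          refine Finset.sum_congr rfl fun l _ => ?_
          rw [hLo]
          field_simp
  have key : ∀ (i k : I) (τ : ℂ), ‖τ‖ = 1 →
      ((Z.d i : ℂ) * Z.d k) * τ = ∑ l, (Z.N i k l : ℂ) * (Z.th l * Z.d l) →
      ∀ l, Z.N i k l ≠ 0 → Z.th l = τ := by
    intro i k τ hτ h l hl
    refine unit_eq (fun l => Z.N i k l * Z.d l) Z.th τ hth hτ ?_ l
      (mul_ne_zero hl (Z.d_pos l).ne')
    rw [← B.dim i k]
    push_cast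
    rw [h]
    exact Finset.sum_congr rfl fun l _ => by ring
  refine ⟨twist, ?_, ?_⟩
  · intro hodd i hi
    have h1 := twist i i
    rw [hi] at h1
    have h2 : Z.th Z.o = Z.th i * Z.th i := by
      refine key i (Z.st i) (Z.th i * Z.th i) (by rw [norm_mul, hth, mul_one]) ?_ Z.o ?_
      · rw [← h1, dd]
        ring
      · rw [B.N_o i i, if_pos rfl]
        exact one_ne_zero
    rw [Z.th_o] at h2
    have hL : Odd Z.L := by
      rw [← Nat.not_even_iff_odd]
      intro he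
      have h3 : 2 ∣ Z.n := Helper73.OS.hLDV Helper53.OS.hXD Helper58.OS.hIDP Helper36.YF.hFUS
        Helper88.YF.hDUA Helper95.YF.hINT hRAT' I Z 2 Nat.prime_two he.two_dvd
      exact (Nat.not_even_iff_odd.2 hodd) (even_iff_two_dvd.2 h3)
    obtain ⟨c, hc⟩ := hL
    have h4 := fL i
    rw [hc, pow_succ, pow_mul, pow_two, ← h2, one_pow, one_mul] at h4
    exact h4
  · intro i k l hik hl
    have hchi : Cchi Z i k = Z.d k := by
      have h := A.Sf_chi i k
      rw [hik] at h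
      exact (mul_left_cancel₀ (hd0 i) h).symm
    have h1 := twist i (Z.st k)
    rw [A.Sf_chi, A.chi_st, hchi, Complex.conj_natCast, dth, dss] at h1
    exact key i k (Z.th i * Z.th k) (by rw [norm_mul, hth, hth, mul_one]) h1 l hl

end Pool.Agent.Helper38.OC
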